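import Pool.Agent.D0H45.QC.Key

/-!
# The exact proportion over `ℤ[i]`: the final asymptotics, for general conditions
-/

set_option autoImplicit false

open scoped Classical

namespace Pool.Agent.D0H45.QC

open Finset Filter
open H385 (ZI im1 nrm)
open Pool.Agent.Y699 hiding XX kk CC
open Pool.Agent.Y703.CX (jj XX eL zz kk eL_tendsto logX_eq rpow_eL HH NN ev_eL one_le_exp
  HH_ge HH_le HH_pos kk_ge kk_le X_pos one_add_log lin_le zz_ge zz_pos)
open Pool.Agent.Y703.CQ (sg prs S_LA S_C2)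
open Pool.Agent.D0H45.Q4 (Sml sml_of sml_add)
open Pool.Agent.D0H45.QK
open Pool.Agent.D0H45.QK.EQ (HB)

variable {L : Cls} {Nd' : Finset ZI → Finset ZI → Prop} {Gd' : Finset ZI → Prop}
  {c0 D0 : ℝ}

/-- few sets are degenerate -/
def BadH (L : Cls) (Nd' : Finset ZI → Finset ZI → Prop) : Prop :=
  ∀ ε : ℝ, 0 < ε → ∃ X₀ : ℕ, ∀ X : ℕ, X₀ ≤ X →
    (((SS L X).filter fun S => S.card ≤ kk X ∧
      ¬ Nd' (sm (zz X) S) (la (zz X) S)).card : ℝ) ≤ ε * X

/-- the sets outside the regular part -/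
theorem out_sub (L : Cls) (Nd' : Finset ZI → Finset ZI → Prop) (X z H k V : ℕ) :
    SS L X \ ((RR L X z H k V).filter fun S => Nd' (sm z S) (la z S)) ⊆
      (((((SS L X).filter fun S => k < S.card) ∪
      ((SS L X).filter fun S => S.card ≤ k ∧
        X < (∏ π ∈ sm z S, nrm π) * ∏ π ∈ la z S, XX H (bl H π))) ∪
      ((SS L X).filter fun S => ¬ Set.InjOn (bl H) (la z S : Set ZI))) ∪
      ((SS L X).filter fun S => S.card ≤ k ∧ (la z S).card ≤ 2 * (sm z S).card + V)) ∪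
      ((SS L X).filter fun S => S.card ≤ k ∧ ¬ Nd' (sm z S) (la z S)) := by
  intro S hS
  rw [Finset.mem_sdiff, Finset.mem_filter] at hS
  obtain ⟨h1, h2⟩ := hS
  simp only [mem_union, mem_filter]
  by_contra hc
  push Not at hc
  obtain ⟨⟨⟨⟨c1, c2⟩, c3⟩, c4⟩, c5⟩ := hc
  have d1 : S.card ≤ k := c1 h1
  have d2 := c2 h1 d1
  have d3 := c3 h1
  have d4 := c4 h1 d1
  have d5 := c5 h1 d1
  apply h2
  refine ⟨?_, d5⟩
  unfold RR
  rw [mem_filter]
  exact ⟨h1, d3, d1, d2, d4⟩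

/-- **The proportion of the good sets in a class.** -/
theorem t_DQ (L : Cls) (hD0 : 0 ≤ D0) (hc0 : 0 ≤ c0) (hc1 : c0 ≤ 1) (hBox : BoxC c0 D0 Nd' Gd') (hBad : BadH L Nd') (hLo : Low L) : Tendsto
    (fun X : ℕ => (((SS L X).filter Gd').card : ℝ) / ((SS L X).card : ℝ)) atTop
    (nhds c0) := by
  obtain ⟨C, hC1, hkey⟩ := t_KEY hD0 hBox
  obtain ⟨D, hD⟩ := t_CNT L
  obtain ⟨c, X₀, hc, hlow⟩ := hLo
  rw [Metric.tendsto_nhds]
  intro ε hε
  obtain ⟨V', hV'⟩ := exists_pow_lt_of_lt_one (show (0 : ℝ) < ε / (32 * (D0 + 1)) by positivity)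
    (show (1 / 2 : ℝ) < 1 by norm_num)
  set V := V' + 2 with hVdef
  have hV : (1 / 2 : ℝ) ^ V < ε / (32 * (D0 + 1)) := by
    refine lt_of_le_of_lt ?_ hV'
    exact pow_le_pow_of_le_one (by norm_num) (by norm_num) (by omega)
  have hV1 : 2 ≤ V := by omega
  have s1 := sml_many hD
  have s2 := sml_cut hD
  have s3 := sml_coll hD
  have s4 := sml_eps (t_FEW L V)
  have s5 := sml_eps hBad
  have s6 := sml_main hC1 (Fintype.card L.M)
  have s := sml_add (sml_add (sml_add (sml_add (sml_add s1 s2) s3) s4) s5) s6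
  have hδ : (0 : ℝ) < c * ε / 4 := by positivity
  filter_upwards [s (c * ε / 4) hδ, ev_eL 1, eventually_ge_atTop X₀] with X hX hl hX0
  rw [neg_zero, zero_mul, Real.exp_zero, mul_one] at hX
  have hl0 : 0 < eL X := by linarith
  have hlo := hlow X hX0
  have hXp := X_pos hl0
  have hXp' : (0 : ℝ) < X := by exact_mod_cast hXp
  have hSpos : (0 : ℝ) < ((SS L X).card : ℝ) := by
    refine lt_of_lt_of_le ?_ hlo
    positivity
  have hN : (HH X : ℝ) * Real.log X < NN X := by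
    unfold NN
    push_cast
    exact Nat.lt_floor_add_one _
  have hmain := hkey L X (zz X) (HH X) (kk X) V (NN X) (kap C X) hXp (HH_pos hl0) (zz_pos hl) hV1
    (kap_nonneg hC1 X) (kap_pow hC1 hl) hN
  set T := (RR L X (zz X) (HH X) (kk X) V).filter fun S => Nd' (sm (zz X) S) (la (zz X) S) with hT
  have hTG : (RR L X (zz X) (HH X) (kk X) V).filter
      (fun S => Nd' (sm (zz X) S) (la (zz X) S) ∧ Gd' S) = T.filter Gd' := by
    rw [hT, filter_filter]
  rw [hTG] at hmain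
  have hTS : T ⊆ SS L X := (filter_subset _ _).trans (filter_subset _ _)
  have hRS : ((RR L X (zz X) (HH X) (kk X) V).card : ℝ) ≤ ((SS L X).card : ℝ) := by
    exact_mod_cast card_le_card (filter_subset _ _)
  have hcmp := cmp Gd' T (SS L X) hTS c0 hc0 hc1
  have hout : ((SS L X \ T).card : ℝ) ≤
      ((((SS L X).filter fun S => kk X < S.card).card : ℝ) +
      (((SS L X).filter fun S => S.card ≤ kk X ∧
        X < (∏ π ∈ sm (zz X) S, nrm π) * ∏ π ∈ la (zz X) S, XX (HH X) (bl (HH X) π)).card : ℝ) +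
      (((SS L X).filter fun S => ¬ Set.InjOn (bl (HH X)) (la (zz X) S : Set ZI)).card : ℝ) +
      (((SS L X).filter fun S => S.card ≤ kk X ∧
        (la (zz X) S).card ≤ 2 * (sm (zz X) S).card + V).card : ℝ)) +
      (((SS L X).filter fun S => S.card ≤ kk X ∧ ¬ Nd' (sm (zz X) S) (la (zz X) S)).card : ℝ) := by
    have g := card_le_card (out_sub L Nd' X (zz X) (HH X) (kk X) V)
    rw [← hT] at g
    have g2 := (g.trans (card_union_le _ _)).trans (Nat.add_le_add_right ((card_union_le _ _).trans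
      (Nat.add_le_add_right ((card_union_le _ _).trans
      (Nat.add_le_add_right (card_union_le _ _) _)) _)) _)
    exact_mod_cast g2
  have htot : |(((SS L X).filter Gd').card : ℝ) - c0 * ((SS L X).card : ℝ)| ≤
      D0 * 16 * (1 / 2 : ℝ) ^ V * ((SS L X).card : ℝ) + c * ε / 4 * X := by
    have g1 : D0 * 16 * (1 / 2 : ℝ) ^ V * ((RR L X (zz X) (HH X) (kk X) V).card : ℝ) ≤
        D0 * 16 * (1 / 2 : ℝ) ^ V * ((SS L X).card : ℝ) := mul_le_mul_of_nonneg_left hRS (by positivity)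
    linarith
  rw [Real.dist_eq]
  have e3 : (((SS L X).filter Gd').card : ℝ) / ((SS L X).card : ℝ) - c0 =
      ((((SS L X).filter Gd').card : ℝ) - c0 * ((SS L X).card : ℝ)) /
        ((SS L X).card : ℝ) := by
    field_simp
  rw [e3, abs_div, abs_of_pos hSpos, div_lt_iff₀ hSpos]
  refine lt_of_le_of_lt htot ?_
  have g2 : c * ε / 4 * X ≤ ε / 4 * ((SS L X).card : ℝ) := by
    calc c * ε / 4 * X = ε / 4 * (c * X) := by ring
      _ ≤ _ := mul_le_mul_of_nonneg_left hlo (by linarith)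
  have g3 : D0 * 16 * (1 / 2 : ℝ) ^ V * ((SS L X).card : ℝ) ≤ ε / 2 * ((SS L X).card : ℝ) := by
    refine mul_le_mul_of_nonneg_right ?_ hSpos.le
    have hD1 : (0 : ℝ) < D0 + 1 := by linarith
    calc D0 * 16 * (1 / 2 : ℝ) ^ V ≤ (D0 + 1) * 16 * (ε / (32 * (D0 + 1))) := by
          gcongr
          linarith
      _ = ε / 2 := by field_simp; ring
  have g4 : 0 < ε * ((SS L X).card : ℝ) := by positivity
  linarith


end Pool.Agent.D0H45.QC
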