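import Pool.Agent.D0H45.QK.Fin

/-!
# The exact proportion over `ℤ[i]`: the sum over the boxes, for general conditions

`Nd'` and `Gd'` are any conditions for which the box theorem holds with the limit `c0` and the error
constant `D0`. After the files of project QK.
-/

set_option autoImplicit false

open scoped Classical

namespace Pool.Agent.D0H45.QC

open Finset Filter
open H385 (ZI im1 nrm)
open Pool.Agent.Y699 hiding XX kk CC
open Pool.Agent.Y703.CX (jj XX eL zz kk eL_tendsto logX_eq rpow_eL HH NN ev_eL one_le_exp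
  HH_ge HH_le HH_pos kk_ge kk_le X_pos one_add_log lin_le zz_ge zz_pos)
open Pool.Agent.Y703.CQ (sg prs S_LA S_C2)
open Pool.Agent.D0H45.Q4 (Sml sml_of sml_add)
open Pool.Agent.D0H45.QK
open Pool.Agent.D0H45.QK.EQ (HB)

variable {L : Cls} {Nd' : Finset ZI → Finset ZI → Prop} {Gd' : Finset ZI → Prop}
  {c0 D0 : ℝ}

/-- the box theorem for the conditions `Nd'`, `Gd'`, with the limit `c0` and the error constant `D0` -/
def BoxC (c0 D0 : ℝ) (Nd' : Finset ZI → Finset ZI → Prop) (Gd' : Finset ZI → Prop) : Prop :=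
  ∀ (ι : Type) [Fintype ι] [DecidableEq ι] (_ : LinearOrder ι) (C : ι → Finset ZI) (X : ι → ℕ)
    (κ : ℝ) (S₀ : Finset ZI), 0 ≤ κ → (∀ i, (C i).card ≤ X i) → HB nq univ C X κ →
    (∀ u ∈ S₀, PP u) → (∀ i, ∀ p ∈ C i, PP p ∧ p ∉ S₀) →
    (∀ i l, i ≠ l → Disjoint (C i) (C l)) → S₀.card + 2 < Fintype.card ι →
    |(((Fintype.piFinset C).filter fun p => Nd' S₀ (univ.image p) ∧
        Gd' (S₀ ∪ univ.image p)).card : ℝ) -
      c0 * (((Fintype.piFinset C).filter fun p => Nd' S₀ (univ.image p)).card : ℝ)| ≤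
    D0 * (4 ^ (S₀.card + 2) / 2 ^ (Fintype.card ι - 1)) *
      (((Fintype.piFinset C).filter fun p => Nd' S₀ (univ.image p)).card : ℝ) +
    2 ^ ((2 * (S₀.card + 1) + 1) * Fintype.card ι + Fintype.card ι * Fintype.card ι) *
      (κ * ∏ j, (X j : ℝ))

theorem per_key (hD0 : 0 ≤ D0) (hBox : BoxC c0 D0 Nd' Gd') {C₁ : ℝ} (hb1 : BilB C₁)
    {X z H k V : ℕ} {κ : ℝ} (hH : 1 ≤ H) (hz : 1 ≤ z) (hV : 2 ≤ V) (hκ : 0 ≤ κ)
    (h1 : C₁ ≤ κ ^ 24 * z) {S₀ : Finset ZI} {J : Finset (ℕ × L.M)}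
    (hkey : (S₀, J) ∈ (RR L X z H k V).image (ky L z H)) :
    |(((RR L X z H k V).filter fun S => ky L z H S = (S₀, J) ∧
        (Nd' (sm z S) (la z S) ∧ Gd' S)).card : ℝ) -
      c0 * (((RR L X z H k V).filter fun S => ky L z H S = (S₀, J) ∧
        Nd' (sm z S) (la z S)).card : ℝ)| ≤
    D0 * 16 * (1 / 2 : ℝ) ^ V *
      (((RR L X z H k V).filter fun S => ky L z H S = (S₀, J) ∧ True).card : ℝ) +
      (3 ^ (9 * k ^ 2) * κ) * (X * (1 / ((∏ p ∈ S₀, nrm p : ℕ) : ℝ))) := by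
  obtain ⟨h₀O, h₀, hJi, hCd, hJf⟩ := key_facts hH hkey
  obtain ⟨c1, c4, c5, c6⟩ := hCd
  have hcJ : Fintype.card J = J.card := Fintype.card_coe J
  have hCmem : ∀ i : J, ∀ p ∈ CC L z H i, PP p ∧ z < nrm p ∧ nrm p ≤ XX H i.1.1 := by
    intro i p hp
    obtain ⟨k1, k2, k3⟩ := (mem_CC hH).1 hp
    refine ⟨k1, k2, ?_⟩
    unfold CC at hp
    rw [Finset.mem_filter, mem_QB] at hp
    exact hp.1.1
  have hdis : ∀ i l : J, i ≠ l → Disjoint (CC L z H i.1) (CC L z H l.1) := by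
    intro i l hil
    rw [Finset.disjoint_left]
    intro p hp hp'
    have h5 := ((mem_CC hH).1 hp).2.2
    have h6 := ((mem_CC hH).1 hp').2.2
    exact hil (Subtype.ext (h5.symm.trans h6))
  have hzX : ∀ i : J, z ≤ XX H i.1.1 := fun i => (hJf i i.2).1
  have hHB : HB nq univ (fun i : J => CC L z H i) (fun i : J => 9 * XX H i.1.1) κ :=
    hb_box hb1 _ _ hz hκ h1 (fun i => by have := hzX i; omega)
      (fun i p hp => by
        obtain ⟨k1, k2, k3⟩ := hCmem i p hp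
        exact ⟨k1, by omega⟩) hdis univ
  have hcard : ∀ i : J, (CC L z H i.1).card ≤ 9 * XX H i.1.1 := by
    intro i
    refine (Finset.card_filter_le _ _).trans (card_QB_le ?_)
    have := hzX i
    omega
  have hinj : Function.Injective (fun i : J => i.1.1) := by
    intro a b hab
    exact Subtype.ext (hJi (Finset.mem_coe.2 a.2) (Finset.mem_coe.2 b.2) hab)
  let lo : LinearOrder J := LinearOrder.lift' (fun i : J => i.1.1) hinj
  have hbox := hBox J lo (fun i : J => CC L z H i)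
    (fun i : J => 9 * XX H i.1.1) κ S₀ hκ hcard hHB h₀O (fun i p hp => by
      obtain ⟨k1, k2, k3⟩ := hCmem i p hp
      refine ⟨k1, fun h => ?_⟩
      have := h₀ p h
      omega) hdis (by rw [hcJ]; omega)
  have e1 : (((Fintype.piFinset fun i : J => CC L z H i).filter
      fun p => Nd' S₀ (univ.image p) ∧ Gd' (S₀ ∪ univ.image p)).card) =
      ((RR L X z H k V).filter fun S => ky L z H S = (S₀, J) ∧
        (Nd' (sm z S) (la z S) ∧ Gd' S)).card := by
    refine Eq.trans (fcc ?_) ((key_bij hH hkey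
      (fun S => Nd' (sm z S) (la z S) ∧ Gd' S)).trans (fcc fun _ _ => Iff.rfl))
    intro p hp
    rw [Fintype.mem_piFinset] at hp
    rw [sm_fill hH h₀ hp, la_fill hH h₀ hp]
  have e2 : (((Fintype.piFinset fun i : J => CC L z H i).filter
      fun p => Nd' S₀ (univ.image p)).card) =
      ((RR L X z H k V).filter fun S => ky L z H S = (S₀, J) ∧
        Nd' (sm z S) (la z S)).card := by
    refine Eq.trans (fcc ?_) ((key_bij hH hkey (fun S => Nd' (sm z S) (la z S))).trans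
      (fcc fun _ _ => Iff.rfl))
    intro p hp
    rw [Fintype.mem_piFinset] at hp
    rw [sm_fill hH h₀ hp, la_fill hH h₀ hp]
  rw [← e1, ← e2]
  have e3 : (((Fintype.piFinset fun i : J => CC L z H i).filter
      fun p => Nd' S₀ (univ.image p)).card : ℝ) ≤
      (((RR L X z H k V).filter fun S => ky L z H S = (S₀, J) ∧ True).card : ℝ) := by
    rw [e2]
    have : (RR L X z H k V).filter (fun S => ky L z H S = (S₀, J) ∧
        Nd' (sm z S) (la z S)) ⊆
        (RR L X z H k V).filter fun S => ky L z H S = (S₀, J) ∧ True := by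
      intro S hS
      rw [Finset.mem_filter] at hS ⊢
      exact ⟨hS.1, hS.2.1, trivial⟩
    exact_mod_cast Finset.card_le_card this
  refine hbox.trans ?_
  have hr : D0 * ((4 : ℝ) ^ (S₀.card + 2) / 2 ^ (Fintype.card J - 1)) ≤ D0 * 16 * (1 / 2 : ℝ) ^ V := by
    have h4 : (4 : ℝ) ^ (S₀.card + 2) / 2 ^ (Fintype.card J - 1) ≤ 16 * (1 / 2 : ℝ) ^ V := by
      rw [div_le_iff₀ (by positivity), hcJ]
      have h5 : (2 : ℝ) ^ (2 * S₀.card + V) ≤ 2 ^ (J.card - 1) :=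
        pow_le_pow_right₀ (by norm_num) (by omega)
      have h6 : 16 * (1 / 2 : ℝ) ^ V * 2 ^ (2 * S₀.card + V) = 4 ^ (S₀.card + 2) := by
        have h7 : (1 / 2 : ℝ) ^ V * 2 ^ V = 1 := by
          rw [← mul_pow]
          norm_num
        have h8 : ((2 : ℝ) ^ 2) ^ S₀.card = 4 ^ S₀.card := by norm_num
        rw [pow_add 2, pow_mul, h8, pow_add 4]
        calc 16 * (1 / 2 : ℝ) ^ V * (4 ^ S₀.card * 2 ^ V) =
              4 ^ S₀.card * 16 * ((1 / 2 : ℝ) ^ V * 2 ^ V) := by ring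
          _ = _ := by rw [h7, mul_one]; norm_num
      calc (4 : ℝ) ^ (S₀.card + 2) = 16 * (1 / 2 : ℝ) ^ V * 2 ^ (2 * S₀.card + V) := h6.symm
        _ ≤ _ := by gcongr
    calc D0 * ((4 : ℝ) ^ (S₀.card + 2) / 2 ^ (Fintype.card J - 1)) ≤ D0 * (16 * (1 / 2 : ℝ) ^ V) :=
          mul_le_mul_of_nonneg_left h4 hD0
      _ = _ := by ring
  have hJK : J.card ≤ k := by omega
  have hSK : S₀.card ≤ k := by omega
  have hN0 : (0 : ℝ) < ((∏ p ∈ S₀, nrm p : ℕ) : ℝ) := by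
    exact_mod_cast Finset.prod_pos fun p hp => nrm_one_le (h₀O p hp)
  have hprod : ∏ j : J, ((9 * XX H j.1.1 : ℕ) : ℝ) ≤
      3 ^ (2 * k) * (X * (1 / ((∏ p ∈ S₀, nrm p : ℕ) : ℝ))) := by
    have h5 : ∏ j : J, ((9 * XX H j.1.1 : ℕ) : ℝ) =
        9 ^ J.card * ((∏ i ∈ J, XX H i.1 : ℕ) : ℝ) := by
      rw [← Finset.prod_coe_sort J (fun i => XX H i.1)]
      push_cast
      rw [Finset.prod_mul_distrib, Finset.prod_const, Finset.card_univ, hcJ]
    have h6 : ((∏ i ∈ J, XX H i.1 : ℕ) : ℝ) ≤ X * (1 / ((∏ p ∈ S₀, nrm p : ℕ) : ℝ)) := by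
      rw [mul_one_div, le_div_iff₀ hN0, mul_comm]
      exact_mod_cast c5
    have h7 : (9 : ℝ) ^ J.card ≤ 3 ^ (2 * k) := by
      calc (9 : ℝ) ^ J.card = 3 ^ (2 * J.card) := by rw [pow_mul]; norm_num
        _ ≤ 3 ^ (2 * k) := pow_le_pow_right₀ (by norm_num) (by omega)
    rw [h5]
    gcongr
  have hpw : (2 : ℝ) ^ ((2 * (S₀.card + 1) + 1) * Fintype.card J + Fintype.card J * Fintype.card J) *
      3 ^ (2 * k) ≤ 3 ^ (9 * k ^ 2) := by
    have h6 : k ≤ k * k := by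
      rcases Nat.eq_zero_or_pos k with h | h
      · rw [h]
      · exact Nat.le_mul_of_pos_left k h
    have h7 : (2 : ℝ) ^ ((2 * (S₀.card + 1) + 1) * Fintype.card J + Fintype.card J * Fintype.card J) ≤
        3 ^ (6 * (k * k)) := by
      refine (pow_le_pow_left₀ (by norm_num) (by norm_num : (2 : ℝ) ≤ 3) _).trans ?_
      apply pow_le_pow_right₀ (by norm_num)
      rw [hcJ]
      have h5 : S₀.card * J.card ≤ k * k := Nat.mul_le_mul hSK hJK
      have h8 : J.card * J.card ≤ k * k := Nat.mul_le_mul hJK hJK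
      have h9 : (2 * (S₀.card + 1) + 1) * J.card = 2 * (S₀.card * J.card) + 3 * J.card := by ring
      omega
    calc (2 : ℝ) ^ ((2 * (S₀.card + 1) + 1) * Fintype.card J + Fintype.card J * Fintype.card J) *
          3 ^ (2 * k) ≤ 3 ^ (6 * (k * k)) * 3 ^ (2 * k) := by gcongr
      _ = 3 ^ (6 * (k * k) + 2 * k) := (pow_add _ _ _).symm
      _ ≤ 3 ^ (9 * k ^ 2) := by
          apply pow_le_pow_right₀ (by norm_num)
          have e : k ^ 2 = k * k := sq k
          rw [e]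
          omega
  refine add_le_add ?_ ?_
  · gcongr
  · have hX1 : (0 : ℝ) ≤ X * (1 / ((∏ p ∈ S₀, nrm p : ℕ) : ℝ)) := by positivity
    set E : ℝ := (2 : ℝ) ^ ((2 * (S₀.card + 1) + 1) * Fintype.card J + Fintype.card J * Fintype.card J)
      with hE
    have hE0 : 0 ≤ E := by positivity
    calc E * (κ * ∏ j : J, ((9 * XX H j.1.1 : ℕ) : ℝ)) ≤
        E * (κ * (3 ^ (2 * k) * (X * (1 / ((∏ p ∈ S₀, nrm p : ℕ) : ℝ))))) := by gcongr
      _ = (E * 3 ^ (2 * k)) * (κ * (X * (1 / ((∏ p ∈ S₀, nrm p : ℕ) : ℝ)))) := by ring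
      _ ≤ 3 ^ (9 * k ^ 2) * (κ * (X * (1 / ((∏ p ∈ S₀, nrm p : ℕ) : ℝ)))) := by gcongr
      _ = _ := by ring

/-- **The sum over the boxes.** -/
theorem t_KEY (hD0 : 0 ≤ D0) (hBox : BoxC c0 D0 Nd' Gd') : ∃ C : ℝ, 1 ≤ C ∧ ∀ (L : Cls)
    (X z H k V N : ℕ) (κ : ℝ), 1 ≤ X → 1 ≤ H → 1 ≤ z → 2 ≤ V → 0 ≤ κ → C ≤ κ ^ 24 * z →
    (H : ℝ) * Real.log X < N →
    |(((RR L X z H k V).filter fun S => Nd' (sm z S) (la z S) ∧ Gd' S).card : ℝ) -
        c0 * (((RR L X z H k V).filter fun S => Nd' (sm z S) (la z S)).card : ℝ)| ≤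
      D0 * 16 * (1 / 2 : ℝ) ^ V * ((RR L X z H k V).card : ℝ) +
      (Fintype.card L.M * N + 1 : ℝ) ^ k * (3 ^ (9 * k ^ 2 + 9) * κ) * (X * (1 + Real.log X)) := by
  obtain ⟨C₁, hC₁, hb1⟩ := t_BIL
  refine ⟨C₁, hC₁, ?_⟩
  intro L X z H k V N κ hX hH hz hV hκ h1 hN
  set T := (RR L X z H k V).image (ky L z H) with hT
  have hfib : ∀ P : Finset ZI → Prop, (((RR L X z H k V).filter fun S => P S).card : ℝ) =
      ∑ k' ∈ T, (((RR L X z H k V).filter fun S => ky L z H S = k' ∧ P S).card : ℝ) := by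
    intro P
    rw [Finset.card_eq_sum_card_fiberwise (f := ky L z H) (t := T) (by
      intro S hS
      rw [Finset.mem_coe, Finset.mem_filter] at hS
      exact Finset.mem_coe.2 (Finset.mem_image_of_mem _ hS.1))]
    push_cast
    refine Finset.sum_congr rfl fun k' _ => ?_
    congr 2
    ext S
    simp only [Finset.mem_filter]
    tauto
  have hall : ((RR L X z H k V).card : ℝ) =
      ∑ k' ∈ T, (((RR L X z H k V).filter fun S => ky L z H S = k' ∧ True).card : ℝ) := by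
    rw [Finset.card_eq_sum_card_fiberwise (f := ky L z H) (t := T) (by
      intro S hS
      exact Finset.mem_coe.2 (Finset.mem_image_of_mem _ hS))]
    push_cast
    exact Finset.sum_congr rfl fun k' _ => congrArg _ (fcc fun _ _ => by tauto)
  have q1 : (((RR L X z H k V).filter fun S => Nd' (sm z S) (la z S) ∧ Gd' S).card : ℝ) =
      ∑ k' ∈ T, (((RR L X z H k V).filter fun S => ky L z H S = k' ∧
        (Nd' (sm z S) (la z S) ∧ Gd' S)).card : ℝ) :=
    (congrArg _ (fcc fun _ _ => Iff.rfl)).trans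
      ((hfib fun S => Nd' (sm z S) (la z S) ∧ Gd' S).trans
      (Finset.sum_congr rfl fun k' _ => congrArg _ (fcc fun _ _ => Iff.rfl)))
  rw [q1, hfib, Finset.mul_sum, ← Finset.sum_sub_distrib, hall, Finset.mul_sum]
  refine (Finset.abs_sum_le_sum_abs _ _).trans ?_
  have h3 : ∑ k' ∈ T, |(((RR L X z H k V).filter fun S => ky L z H S = k' ∧
      (Nd' (sm z S) (la z S) ∧ Gd' S)).card : ℝ) - c0 * (((RR L X z H k V).filter fun S =>
      ky L z H S = k' ∧ Nd' (sm z S) (la z S)).card : ℝ)| ≤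
      ∑ k' ∈ T, (D0 * 16 * (1 / 2 : ℝ) ^ V * (((RR L X z H k V).filter fun S =>
      ky L z H S = k' ∧ True).card : ℝ) +
      (3 ^ (9 * k ^ 2) * κ) * (X * (1 / ((∏ p ∈ k'.1, nrm p : ℕ) : ℝ)))) := by
    refine Finset.sum_le_sum fun k' hk => ?_
    obtain ⟨S₀, J⟩ := k'
    exact per_key hD0 hBox hb1 hH hz hV hκ h1 hk
  refine h3.trans ?_
  rw [Finset.sum_add_distrib]
  refine add_le_add (le_refl _) ?_
  exact keg_err hX hH hz hκ hN fun k' hk => hk

end Pool.Agent.D0H45.QC
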